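import Mathlib
import Pool.Agent.Lib.MP_f77bf6_co.Lower

set_option autoImplicit false

/-!
# MP_f77bf6_co: the exact value of `ex(n, P_6, P_8)` for all `n`
-/

namespace Pool.Agent.Results.MP_f77bf6_co.ExactValue

open SimpleGraph

/-- The set of the numbers of copies of `P_6` in the `P_8`-free graphs with `n` vertices. -/
def counts (n : ℕ) : Set ℕ :=
  {c | ∃ G : SimpleGraph (Fin n), (pathGraph 8).Free G ∧ G.copyCount (pathGraph 6) = c}

/-- `ex(n, P_6, P_8)` is `0` for `n ≤ 5`, `360` for `n = 6`, `2520` for `7 ≤ n ≤ 10` and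
`12 (n-3) (n-4) (n-5)` for `n ≥ 10`. -/
theorem result :
    (∀ n : ℕ, n ≤ 5 → IsGreatest (counts n) 0) ∧
    IsGreatest (counts 6) 360 ∧
    (∀ n : ℕ, 7 ≤ n → n ≤ 10 → IsGreatest (counts n) 2520) ∧
    (∀ n : ℕ, 10 ≤ n → IsGreatest (counts n) (12 * ((n - 3) * (n - 4) * (n - 5)))) := by
  classical
  have key : ∀ n, IsGreatest (counts n) (Pool.Agent.Lib.MP_f77bf6_co.exN n) := by
    intro n
    constructor
    · obtain ⟨G, h1, h2⟩ := Pool.Agent.Lib.MP_f77bf6_co.exists_extremal n
      exact ⟨G, h1, h2⟩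
    · rintro c ⟨G, h1, rfl⟩
      have := Pool.Agent.Lib.MP_f77bf6_co.copyCount_le G h1
      rwa [Fintype.card_fin] at this
  refine ⟨?_, ?_, ?_, ?_⟩
  · intro n hn
    have := key n
    rwa [show Pool.Agent.Lib.MP_f77bf6_co.exN n = 0 by
      unfold Pool.Agent.Lib.MP_f77bf6_co.exN; rw [if_pos hn]] at this
  · exact key 6
  · intro n h7 h10
    have := key n
    rwa [show Pool.Agent.Lib.MP_f77bf6_co.exN n = 2520 by
      unfold Pool.Agent.Lib.MP_f77bf6_co.exN
      rw [if_neg (by omega), if_neg (by omega), if_pos h10]] at this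
  · intro n hn
    have := key n
    rwa [show Pool.Agent.Lib.MP_f77bf6_co.exN n = 12 * ((n - 3) * (n - 4) * (n - 5)) by
      rcases Nat.lt_or_ge n 11 with h | h
      · have : n = 10 := by omega
        subst this
        rfl
      · exact Pool.Agent.Lib.MP_f77bf6_co.exN_big h] at this

end Pool.Agent.Results.MP_f77bf6_co.ExactValue
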